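import Pool.Agent.Q75.EF.Check

namespace Pool.Agent.Q75.EF.C2

open Pool.Agent.Q75.EF

set_option maxRecDepth 100000

/-- The partitions used in the certificate for 2 agents. -/
def tab : List (List Part) := [
  [(825, [824, 817, 809, 569, 313]), (198, [196, 194, 134, 70])],
  [(167, [166, 165, 163]), (856, [848, 840, 792, 600, 344])],
  [(419, [418, 417, 163]), (604, [600, 596, 588])],
  [(353, [352, 289, 97]), (670, [668, 666, 662, 654])],
  [(629, [628, 625, 613]), (394, [392, 386])],
  [(685, [684, 681, 677]), (338, [336, 322])],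
  [(289, [288, 33]), (734, [732, 730, 726, 718, 670, 606])],
  [(33, [32, 1]), (990, [988, 986, 982, 974, 926, 862, 734, 478])],
  [(1, [0]), (1022, [1020, 1018, 1014, 1006, 990, 958, 894, 766, 510])]]

/-- The order constraints. -/
def base : List Cn := [⟨false, 4, 2⟩, ⟨false, 16, 8⟩, ⟨false, 128, 64⟩, ⟨false, 512, 256⟩, ⟨false, 512, 128⟩]

def s0 : List ℕ := [0, 32, 0, 659521, 0, 64, 0, 659457, 0, 96, 0, 7013535745, 0, 1576993, 0, 96, 0, 64, 0, 128, 0, 266273, 0, 32, 0, 160, 0, 76129138444636131361, 0, 4542499917889, 0, 659521, 0, 6476271649, 0, 192, 0, 397441, 0, 224, 0, 397505, 0, 256, 0, 790657, 0]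

/-- The certificate. -/
def cert : List (List ℕ) := [s0]

theorem ok : run tab 1000000 cert.flatten base (iopts (tab.headD [])) = some [] := by
  decide +kernel

end Pool.Agent.Q75.EF.C2
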