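import Pool.Agent.Q75.EF.Check

namespace Pool.Agent.Q75.EF.C9

open Pool.Agent.Q75.EF

set_option maxRecDepth 100000

/-- The partitions used in the certificate for 9 agents. -/
def tab : List (List Part) := [
  [(1, [0]), (2, [0]), (4, [0]), (8, [0]), (528, [512, 16]), (32, [0]), (64, [0]), (128, [0]), (256, [0])],
  [(33, [32, 1]), (2, [0]), (4, [0]), (8, [0]), (16, [0]), (64, [0]), (128, [0]), (256, [0]), (512, [0])],
  [(1, [0]), (2, [0]), (132, [128, 4]), (8, [0]), (16, [0]), (32, [0]), (64, [0]), (256, [0]), (512, [0])]]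

/-- The order constraints. -/
def base : List Cn := [⟨false, 4, 2⟩, ⟨false, 16, 8⟩, ⟨false, 128, 64⟩, ⟨false, 512, 256⟩, ⟨false, 512, 128⟩]

def s0 : List ℕ := [0, 32, 0, 0, 1314849, 0, 1445921, 0, 1576993, 0, 1183777, 0, 1970209, 0, 2101281, 0, 2232353, 0, 1052705, 0, 64, 0, 3776188449, 0, 2363425, 6996889633, 4849537057, 921633, 0, 1629229089, 2273665880097, 6460018721, 790561, 0, 64, 0, 1314849, 0, 1445921, 0, 0, 1576993, 0, 1183777, 0, 1839137, 0, 1970209, 0, 2232353, 0, 1052705, 0, 1183777, 0, 0, 32, 0, 0, 1576961, 0, 1708033, 0, 1839105, 0, 1314817, 0, 2101249, 0, 2232321, 0, 2363393, 0, 1183745, 0, 555094017, 0, 1708033, 0, 1576961]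

/-- The certificate. -/
def cert : List (List ℕ) := [s0]

theorem ok : run tab 1000000 cert.flatten base (iopts (tab.headD [])) = some [] := by
  decide +kernel

end Pool.Agent.Q75.EF.C9
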