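import Pool.Agent.Q75.EF.Valid
import Pool.Agent.Q75.EF.C2
import Pool.Agent.Q75.EF.C3
import Pool.Agent.Q75.EF.C4
import Pool.Agent.Q75.EF.C5
import Pool.Agent.Q75.EF.C6
import Pool.Agent.Q75.EF.C7
import Pool.Agent.Q75.EF.C8
import Pool.Agent.Q75.EF.C9

/-!
# Assembly of the certificates for `2 ≤ n ≤ 9`
-/

namespace Pool.Agent.Q75.EF

theorem bv_expand (w : Fin 10 → ℝ) (s : ℕ) : bv w s =
    (if s.testBit 0 then w 0 else 0) + (if s.testBit 1 then w 1 else 0) +
    (if s.testBit 2 then w 2 else 0) + (if s.testBit 3 then w 3 else 0) +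
    (if s.testBit 4 then w 4 else 0) + (if s.testBit 5 then w 5 else 0) +
    (if s.testBit 6 then w 6 else 0) + (if s.testBit 7 then w 7 else 0) +
    (if s.testBit 8 then w 8 else 0) + (if s.testBit 9 then w 9 else 0) := by
  unfold bv
  simp only [Fin.sum_univ_succ, Fin.sum_univ_zero]
  simp only [Fin.val_zero, Fin.val_succ, Fin.succ_zero_eq_one]
  norm_num
  ring_nf
  rfl

theorem holds_of (w : Fin 10 → ℝ) (l r : ℕ) (h : bv w l ≤ bv w r) : (Cn.mk false l r).holds w :=
  ⟨h, by simp⟩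

theorem bv_single (w : Fin 10 → ℝ) (i : Fin 10) : bv w (2 ^ (i : ℕ)) = w i := by
  unfold bv
  rw [Finset.sum_eq_single i]
  · simp
  · intro j _ hj
    have : ¬ ((i : ℕ) = (j : ℕ)) := fun e => hj (Fin.ext e.symm)
    rw [Nat.testBit_two_pow]
    simp [this]
  · simp

theorem base_sound (w : Fin 10 → ℝ) (h1 : w 2 ≤ w 1) (h2 : w 4 ≤ w 3) (h3 : w 7 ≤ w 6)
    (h4 : w 9 ≤ w 8) (l r : ℕ) (h5 : bv w l ≤ bv w r) :
    ∀ c ∈ ([⟨false, 4, 2⟩, ⟨false, 16, 8⟩, ⟨false, 128, 64⟩, ⟨false, 512, 256⟩, ⟨false, l, r⟩] :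
      List Cn), c.holds w := by
  have e1 := bv_single w 1
  have e2 := bv_single w 2
  have e3 := bv_single w 3
  have e4 := bv_single w 4
  have e6 := bv_single w 6
  have e7 := bv_single w 7
  have e8 := bv_single w 8
  have e9 := bv_single w 9
  norm_num at e1 e2 e3 e4 e6 e7 e8 e9
  intro c hc
  simp only [List.mem_cons, List.not_mem_nil, or_false] at hc
  rcases hc with rfl | rfl | rfl | rfl | rfl
  · exact holds_of w _ _ (by rw [e1, e2]; exact h1)
  · exact holds_of w _ _ (by rw [e3, e4]; exact h2)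
  · exact holds_of w _ _ (by rw [e6, e7]; exact h3)
  · exact holds_of w _ _ (by rw [e8, e9]; exact h4)
  · exact holds_of w _ _ h5

theorem good2 : ∀ w : Fin 10 → ℝ, (∀ i, 0 ≤ w i) → Good 2 w := by
  refine wlog_all 2 (fun w => w 7) ?_
  intro w hw h1 h2 h3 h4 h5
  refine good_of_cert 2 (by norm_num) C2.tab C2.base C2.cert.flatten 1000000 C2.ok (by simp [C2.tab])
    (by decide +kernel) w hw ?_
  refine base_sound w h1 h2 h3 h4 _ _ ?_
  · beta_reduce at h5
    have e : side 7 = 9 := by decide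
    have f7 := bv_single w 7
    have f9 := bv_single w 9
    norm_num at f7 f9
    rw [f7, f9]
    simpa only [e] using h5

theorem good3 : ∀ w : Fin 10 → ℝ, (∀ i, 0 ≤ w i) → Good 3 w := by
  refine wlog_all 3 (fun w => w 2) ?_
  intro w hw h1 h2 h3 h4 h5
  refine good_of_cert 3 (by norm_num) C3.tab C3.base C3.cert.flatten 1000000 C3.ok (by simp [C3.tab])
    (by decide +kernel) w hw ?_
  refine base_sound w h1 h2 h3 h4 _ _ ?_
  · beta_reduce at h5
    have e : side 2 = 4 := by decide
    have f2 := bv_single w 2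
    have f4 := bv_single w 4
    norm_num at f2 f4
    rw [f2, f4]
    simpa only [e] using h5

theorem good4 : ∀ w : Fin 10 → ℝ, (∀ i, 0 ≤ w i) → Good 4 w := by
  refine wlog_all 4 (fun w => w 1 + w 2 + w 6 + w 7) ?_
  intro w hw h1 h2 h3 h4 h5
  refine good_of_cert 4 (by norm_num) C4.tab C4.base C4.cert.flatten 1000000 C4.ok (by simp [C4.tab])
    (by decide +kernel) w hw ?_
  refine base_sound w h1 h2 h3 h4 _ _ ?_
  · beta_reduce at h5
    have a1 : side 1 = 3 := by decide
    have a2 : side 2 = 4 := by decide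
    have a6 : side 6 = 8 := by decide
    have a7 : side 7 = 9 := by decide
    simp only [a1, a2, a6, a7] at h5
    have f1 : bv w 792 = w 3 + w 4 + w 8 + w 9 := by
      rw [bv_expand]; simp [Nat.testBit]
    have f2 : bv w 198 = w 1 + w 2 + w 6 + w 7 := by
      rw [bv_expand]; simp [Nat.testBit]
    rw [f1, f2]
    exact h5

theorem good5 : ∀ w : Fin 10 → ℝ, (∀ i, 0 ≤ w i) → Good 5 w := by
  refine wlog_all 5 (fun w => w 2) ?_
  intro w hw h1 h2 h3 h4 h5
  refine good_of_cert 5 (by norm_num) C5.tab C5.base C5.cert.flatten 1000000 C5.ok (by simp [C5.tab])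
    (by decide +kernel) w hw ?_
  refine base_sound w h1 h2 h3 h4 _ _ ?_
  · beta_reduce at h5
    have e : side 2 = 4 := by decide
    have f2 := bv_single w 2
    have f4 := bv_single w 4
    norm_num at f2 f4
    rw [f2, f4]
    simpa only [e] using h5

theorem good6 : ∀ w : Fin 10 → ℝ, (∀ i, 0 ≤ w i) → Good 6 w := by
  refine wlog_all 6 (fun w => w 7) ?_
  intro w hw h1 h2 h3 h4 h5
  refine good_of_cert 6 (by norm_num) C6.tab C6.base C6.cert.flatten 1000000 C6.ok (by simp [C6.tab])
    (by decide +kernel) w hw ?_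
  refine base_sound w h1 h2 h3 h4 _ _ ?_
  · beta_reduce at h5
    have e : side 7 = 9 := by decide
    have f7 := bv_single w 7
    have f9 := bv_single w 9
    norm_num at f7 f9
    rw [f7, f9]
    simpa only [e] using h5

theorem good7 : ∀ w : Fin 10 → ℝ, (∀ i, 0 ≤ w i) → Good 7 w := by
  refine wlog_all 7 (fun w => w 7) ?_
  intro w hw h1 h2 h3 h4 h5
  refine good_of_cert 7 (by norm_num) C7.tab C7.base C7.cert.flatten 1000000 C7.ok (by simp [C7.tab])
    (by decide +kernel) w hw ?_
  refine base_sound w h1 h2 h3 h4 _ _ ?_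
  · beta_reduce at h5
    have e : side 7 = 9 := by decide
    have f7 := bv_single w 7
    have f9 := bv_single w 9
    norm_num at f7 f9
    rw [f7, f9]
    simpa only [e] using h5

theorem good8 : ∀ w : Fin 10 → ℝ, (∀ i, 0 ≤ w i) → Good 8 w := by
  refine wlog_all 8 (fun w => w 7) ?_
  intro w hw h1 h2 h3 h4 h5
  refine good_of_cert 8 (by norm_num) C8.tab C8.base C8.cert.flatten 1000000 C8.ok (by simp [C8.tab])
    (by decide +kernel) w hw ?_
  refine base_sound w h1 h2 h3 h4 _ _ ?_
  · beta_reduce at h5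
    have e : side 7 = 9 := by decide
    have f7 := bv_single w 7
    have f9 := bv_single w 9
    norm_num at f7 f9
    rw [f7, f9]
    simpa only [e] using h5

theorem good9 : ∀ w : Fin 10 → ℝ, (∀ i, 0 ≤ w i) → Good 9 w := by
  refine wlog_all 9 (fun w => w 7) ?_
  intro w hw h1 h2 h3 h4 h5
  refine good_of_cert 9 (by norm_num) C9.tab C9.base C9.cert.flatten 1000000 C9.ok (by simp [C9.tab])
    (by decide +kernel) w hw ?_
  refine base_sound w h1 h2 h3 h4 _ _ ?_
  · beta_reduce at h5
    have e : side 7 = 9 := by decide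
    have f7 := bv_single w 7
    have f9 := bv_single w 9
    norm_num at f7 f9
    rw [f7, f9]
    simpa only [e] using h5

end Pool.Agent.Q75.EF
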