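import Mathlib

/-!
# A certificate checker for partitions of a ten-element set

Subsets of `{0,…,9}` are coded by bit masks.  A *part* is a pair `(s, R)` of a mask `s` and a list
`R` of masks (the masks `s` minus an outer vertex).  The checker `run` verifies a decision tree
whose leaves are Farkas certificates.
-/

namespace Pool.Agent.Q75.EF

/-- A linear constraint between two masks: `bv l ≤ bv r`, or `bv l < bv r` if `s` is true. -/
structure Cn where
  s : Bool
  l : ℕ
  r : ℕ

/-- A part of a partition: the mask and the list of reduced masks. -/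
abbrev Part := ℕ × List ℕ

/-- Value of a mask. -/
noncomputable def bv (w : Fin 10 → ℝ) (s : ℕ) : ℝ := ∑ i : Fin 10, if s.testBit i then w i else 0

/-- Meaning of a constraint. -/
def Cn.holds (w : Fin 10 → ℝ) (c : Cn) : Prop :=
  bv w c.l ≤ bv w c.r ∧ (c.s = true → bv w c.l < bv w c.r)

/-- The packed number of a mask: digit `i` in base `4096` is bit `i` of the mask. -/
def spread (s : ℕ) : ℕ :=
  s % 2 + 4096 * (s / 2 % 2 + 4096 * (s / 4 % 2 + 4096 * (s / 8 % 2 + 4096 * (s / 16 % 2 +
  4096 * (s / 32 % 2 + 4096 * (s / 64 % 2 + 4096 * (s / 128 % 2 + 4096 * (s / 256 % 2 +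
  4096 * (s / 512 % 2)))))))))

/-- Packed number of a coefficient vector. -/
def pk (c : Fin 10 → ℕ) : ℕ :=
  c 0 + 4096 * (c 1 + 4096 * (c 2 + 4096 * (c 3 + 4096 * (c 4 +
  4096 * (c 5 + 4096 * (c 6 + 4096 * (c 7 + 4096 * (c 8 +
  4096 * (c 9)))))))))

/-- Indicator vector of a mask. -/
def ind (s : ℕ) (i : Fin 10) : ℕ := if s.testBit i then 1 else 0

theorem spread_eq (s : ℕ) : spread s = pk (ind s) := by
  have h : ∀ k : ℕ, (if s.testBit k then 1 else 0) = s / 2 ^ k % 2 := by
    intro k
    rw [Nat.testBit_eq_decide_div_mod_eq]
    rcases Nat.mod_two_eq_zero_or_one (s / 2 ^ k) with h | h <;> simp [h]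
  unfold spread pk ind
  simp only [h]
  norm_num

theorem pk_add (a b : Fin 10 → ℕ) (t : ℕ) : pk a + t * pk b = pk (fun i => a i + t * b i) := by
  unfold pk; ring

/-- Digitwise comparison `SR ≤ SL` in base `4096`. -/
def cmp : ℕ → ℕ → ℕ → Bool
  | 0, _, _ => true
  | k + 1, x, y => bif Nat.ble (y % 4096) (x % 4096) then cmp k (x / 4096) (y / 4096) else false

theorem cmp_sound (a b : Fin 10 → ℕ) (ha : ∀ i, a i < 4096) (hb : ∀ i, b i < 4096)
    (h : cmp 10 (pk a) (pk b) = true) : ∀ i, b i ≤ a i := by
  have step : ∀ k x y u v : ℕ, x < 4096 → y < 4096 →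
      cmp (k + 1) (x + 4096 * u) (y + 4096 * v) = true → y ≤ x ∧ cmp k u v = true := by
    intro k x y u v hx hy h
    have e1 : (x + 4096 * u) % 4096 = x := by omega
    have e2 : (y + 4096 * v) % 4096 = y := by omega
    have e3 : (x + 4096 * u) / 4096 = u := by omega
    have e4 : (y + 4096 * v) / 4096 = v := by omega
    simp only [cmp, e1, e2, e3, e4] at h
    cases hb : Nat.ble y x with
    | false => rw [hb] at h; simp at h
    | true => rw [hb] at h; exact ⟨Nat.le_of_ble_eq_true hb, by simpa using h⟩
  unfold pk at h
  obtain ⟨h0, h⟩ := step _ _ _ _ _ (ha 0) (hb 0) h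
  obtain ⟨h1, h⟩ := step _ _ _ _ _ (ha 1) (hb 1) h
  obtain ⟨h2, h⟩ := step _ _ _ _ _ (ha 2) (hb 2) h
  obtain ⟨h3, h⟩ := step _ _ _ _ _ (ha 3) (hb 3) h
  obtain ⟨h4, h⟩ := step _ _ _ _ _ (ha 4) (hb 4) h
  obtain ⟨h5, h⟩ := step _ _ _ _ _ (ha 5) (hb 5) h
  obtain ⟨h6, h⟩ := step _ _ _ _ _ (ha 6) (hb 6) h
  obtain ⟨h7, h⟩ := step _ _ _ _ _ (ha 7) (hb 7) h
  obtain ⟨h8, h⟩ := step _ _ _ _ _ (ha 8) (hb 8) h
  have h9 : b 9 ≤ a 9 := by
    have := step 0 (a 9) (b 9) 0 0 (ha 9) (hb 9) (by simpa using h)
    exact this.1
  intro i
  fin_cases i <;> assumption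

/-- `n`-fold tail. -/
def dropN : ℕ → List Cn → List Cn
  | 0, l => l
  | _ + 1, [] => []
  | n + 1, _ :: l => dropN n l

theorem mem_of_mem_dropN : ∀ (n : ℕ) (l : List Cn) (c : Cn), c ∈ dropN n l → c ∈ l
  | 0, _, _, h => h
  | _ + 1, [], _, h => h
  | n + 1, _ :: l, c, h => List.mem_cons_of_mem _ (mem_of_mem_dropN n l c h)

/-- Farkas check: the word `W` lists in base `4096` tokens `32 * skip + multiplier`. -/
def fk : ℕ → ℕ → List Cn → ℕ → ℕ → Bool → Bool
  | 0, _, _, _, _, _ => false
  | f + 1, W, ctx, SL, SR, st =>
    match W with
    | 0 => bif st then cmp 10 SL SR else false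
    | W' + 1 =>
      match dropN ((W' + 1) % 4096 / 32) ctx with
      | [] => false
      | c :: ctx' =>
        fk f ((W' + 1) / 4096) ctx' (SL + ((W' + 1) % 32) * spread c.l)
          (SR + ((W' + 1) % 32) * spread c.r)
          (st || (c.s && Nat.ble 1 ((W' + 1) % 32)))

/-- Value of a coefficient vector. -/
noncomputable def cv (w : Fin 10 → ℝ) (c : Fin 10 → ℕ) : ℝ := ∑ i : Fin 10, (c i : ℝ) * w i

theorem cv_ind (w : Fin 10 → ℝ) (s : ℕ) : cv w (ind s) = bv w s := by
  unfold cv bv ind
  refine Finset.sum_congr rfl fun i _ => ?_
  split_ifs <;> simp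

theorem cv_add (w : Fin 10 → ℝ) (a b : Fin 10 → ℕ) (t : ℕ) :
    cv w (fun i => a i + t * b i) = cv w a + t * cv w b := by
  unfold cv
  rw [Finset.mul_sum, ← Finset.sum_add_distrib]
  refine Finset.sum_congr rfl fun i _ => ?_
  push_cast
  ring

theorem fk_sound (w : Fin 10 → ℝ) (hw : ∀ i, 0 ≤ w i) : ∀ (f W : ℕ) (ctx : List Cn) (a b : Fin 10 → ℕ)
    (st : Bool), f ≤ 100 → (∀ c ∈ ctx, c.holds w) → (∀ i, a i ≤ 31 * (100 - f)) →
    (∀ i, b i ≤ 31 * (100 - f)) → cv w a ≤ cv w b → (st = true → cv w a < cv w b) →
    fk f W ctx (pk a) (pk b) st = true → False := by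
  intro f
  induction f with
  | zero => intro W ctx a b st _ _ _ _ _ _ h; simp [fk] at h
  | succ f ih =>
    intro W ctx a b st hf hctx ha hb hle hlt h
    cases W with
    | zero =>
      simp only [fk] at h
      cases st with
      | false => simp at h
      | true =>
        simp only [cond_true] at h
        have h1 := cmp_sound a b (fun i => by have := ha i; omega) (fun i => by have := hb i; omega) h
        have h2 : cv w b ≤ cv w a := by
          unfold cv
          exact Finset.sum_le_sum fun i _ =>
            mul_le_mul_of_nonneg_right (by exact_mod_cast h1 i) (hw i)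
        exact absurd (hlt rfl) (not_lt.mpr h2)
    | succ W' =>
      simp only [fk] at h
      cases hd : dropN ((W' + 1) % 4096 / 32) ctx with
      | nil => rw [hd] at h; simp at h
      | cons c ctx' =>
        rw [hd] at h
        simp only [spread_eq, pk_add] at h
        have hmem : ∀ c' ∈ c :: ctx', c'.holds w := by
          intro c' hc'
          exact hctx c' (mem_of_mem_dropN _ _ _ (hd ▸ hc'))
        have hc := hmem c (List.mem_cons_self)
        set t := (W' + 1) % 32 with ht
        have ht31 : t ≤ 31 := by omega
        have hind : ∀ (s : ℕ) (i : Fin 10), ind s i ≤ 1 := by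
          intro s i; unfold ind; split_ifs <;> simp
        have hbnd : ∀ (x : ℕ) (s : ℕ) (i : Fin 10), x ≤ 31 * (100 - (f + 1)) →
            x + t * ind s i ≤ 31 * (100 - f) := by
          intro x s i hx
          have := hind s i
          have : t * ind s i ≤ 31 * 1 := Nat.mul_le_mul ht31 this
          omega
        refine ih _ ctx' _ _ _ (by omega) (fun c' hc' => hmem c' (List.mem_cons_of_mem _ hc'))
          (fun i => hbnd _ _ i (ha i)) (fun i => hbnd _ _ i (hb i)) ?_ ?_ h
        · rw [cv_add, cv_add, cv_ind, cv_ind]
          have := hc.1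
          have h0 : (0 : ℝ) ≤ t := Nat.cast_nonneg _
          nlinarith
        · intro hst
          rw [cv_add, cv_add, cv_ind, cv_ind]
          have h0 : (0 : ℝ) ≤ t := Nat.cast_nonneg _
          simp only [Bool.or_eq_true, Bool.and_eq_true] at hst
          rcases hst with hst | ⟨hs, ht1⟩
          · have := hlt hst
            have := hc.1
            nlinarith
          · have h1 : (1 : ℝ) ≤ t := by exact_mod_cast Nat.le_of_ble_eq_true ht1
            have := hc.2 hs
            nlinarith

/-- Options of the decision tree. -/
inductive Opt where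
  | I (a : ℕ) (π : List Part)
  | J (a : ℕ) (red : List ℕ)

/-- The constraints of an option. -/
def Opt.cs : Opt → List Cn
  | .I a π => (π.filter fun p => !(Nat.beq p.1 a)).map fun p => ⟨false, a, p.1⟩
  | .J a red => red.map fun r => ⟨true, a, r⟩

/-- Does the list contain zero. -/
def has0 (l : List ℕ) : Bool := l.any fun r => Nat.beq r 0

/-- The meaning of an option. -/
def Opt.holds (w : Fin 10 → ℝ) : Opt → Prop
  | .I a π => (∀ q ∈ π, bv w a ≤ bv w q.1) ∧
      ∃ q ∈ π, Nat.beq q.1 a = false ∧ has0 q.2 = false ∧ ∀ r ∈ q.2, bv w a < bv w r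
  | .J a red => ∀ r ∈ red, bv w a < bv w r

/-- Splitting on the violating part. -/
def jopts (a : ℕ) (π : List Part) : List Opt :=
  (π.filter fun p => !(Nat.beq p.1 a) && !(has0 p.2)).map fun p => Opt.J a p.2

/-- Splitting on the poorest part. -/
def iopts (π : List Part) : List Opt := π.map fun p => Opt.I p.1 π

theorem holds_cs (w : Fin 10 → ℝ) (o : Opt) (h : o.holds w) : ∀ c ∈ o.cs, c.holds w := by
  intro c hc
  cases o with
  | I a π =>
    simp only [Opt.cs, List.mem_map, List.mem_filter] at hc
    obtain ⟨p, ⟨hp, _⟩, rfl⟩ := hc
    exact ⟨h.1 p hp, by simp⟩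
  | J a red =>
    simp only [Opt.cs, List.mem_map] at hc
    obtain ⟨r, hr, rfl⟩ := hc
    exact ⟨(h r hr).le, fun _ => h r hr⟩

/-- A partition is bad: with `p` a poorest part, some part all of whose reduced masks are
richer. -/
def BadPart (w : Fin 10 → ℝ) (π : List Part) : Prop := ∃ o ∈ iopts π, o.holds w

/-- Table lookup. -/
def getP : ℕ → List (List Part) → Option (List Part)
  | _, [] => none
  | 0, p :: _ => some p
  | n + 1, _ :: l => getP n l

theorem mem_of_getP : ∀ (n : ℕ) (l : List (List Part)) (p : List Part), getP n l = some p → p ∈ l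
  | n, [], p, h => by cases n <;> simp [getP] at h
  | 0, q :: l, p, h => by simp only [getP, Option.some.injEq] at h; simp [h]
  | n + 1, q :: l, p, h => List.mem_cons_of_mem _ (mem_of_getP n l p (by simpa [getP] using h))

/-- The tree checker. -/
def run (tab : List (List Part)) : ℕ → List ℕ → List Cn → List Opt → Option (List ℕ)
  | 0, _, _, _ => none
  | f + 1, s, ctx, opts =>
    match opts with
    | [] => some s
    | o :: os =>
      match s with
      | [] => none
      | W :: s' =>
        match W % 32 with
        | _ + 1 =>
          match fk 100 W (o.cs ++ ctx) 0 0 false with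
          | true => run tab f s' ctx os
          | false => none
        | 0 =>
          match o with
          | .I a π =>
            match run tab f s' (o.cs ++ ctx) (jopts a π) with
            | none => none
            | some s2 => run tab f s2 ctx os
          | .J _ _ =>
            match getP (W / 32) tab with
            | none => none
            | some π =>
              match run tab f s' (o.cs ++ ctx) (iopts π) with
              | none => none
              | some s2 => run tab f s2 ctx os

theorem pk_zero : pk (fun _ => 0) = 0 := by simp [pk]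

theorem run_sound (w : Fin 10 → ℝ) (hw : ∀ i, 0 ≤ w i) (tab : List (List Part))
    (hbad : ∀ π ∈ tab, BadPart w π) : ∀ (f : ℕ) (s : List ℕ) (ctx : List Cn) (opts : List Opt)
    (s' : List ℕ), run tab f s ctx opts = some s' → (∀ c ∈ ctx, c.holds w) →
    ∀ o ∈ opts, ¬ o.holds w := by
  intro f
  induction f with
  | zero => intro s ctx opts s' h; simp [run] at h
  | succ f ih =>
    intro s ctx opts s' h hctx
    cases opts with
    | nil => intro o ho; simp at ho
    | cons o os =>
      cases s with
      | nil => simp [run] at h
      | cons W s1 =>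
        simp only [run] at h
        have hctx' : o.holds w → ∀ c ∈ o.cs ++ ctx, c.holds w := by
          intro ho c hc
          rcases List.mem_append.mp hc with hc | hc
          · exact holds_cs w o ho c hc
          · exact hctx c hc
        cases hW : W % 32 with
        | succ k =>
          rw [hW] at h
          simp only at h
          cases hfk : fk 100 W (o.cs ++ ctx) 0 0 false with
          | false => rw [hfk] at h; simp at h
          | true =>
            rw [hfk] at h
            simp only at h
            intro o' ho'
            rcases List.mem_cons.mp ho' with rfl | ho'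
            · intro hh
              have := fk_sound w hw 100 W (o'.cs ++ ctx) (fun _ => 0) (fun _ => 0) false le_rfl
                (hctx' hh) (fun _ => by simp) (fun _ => by simp) le_rfl (by simp)
              rw [pk_zero] at this
              exact this hfk
            · exact ih _ _ _ _ h hctx o' ho'
        | zero =>
          rw [hW] at h
          cases o with
          | I a π =>
            simp only at h
            cases hr : run tab f s1 ((Opt.I a π).cs ++ ctx) (jopts a π) with
            | none => rw [hr] at h; simp at h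
            | some s2 =>
              rw [hr] at h
              simp only at h
              intro o' ho'
              rcases List.mem_cons.mp ho' with rfl | ho'
              · intro hh
                obtain ⟨h1, q, hq, hqa, hq0, hqr⟩ := hh
                refine ih _ _ _ _ hr (hctx' ⟨h1, q, hq, hqa, hq0, hqr⟩) (Opt.J a q.2) ?_ hqr
                simp only [jopts, List.mem_map, List.mem_filter]
                exact ⟨q, ⟨hq, by simp [hqa, hq0]⟩, rfl⟩
              · exact ih _ _ _ _ h hctx o' ho'
          | J a red =>
            simp only at h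
            cases hg : getP (W / 32) tab with
            | none => rw [hg] at h; simp at h
            | some π =>
              rw [hg] at h
              simp only at h
              cases hr : run tab f s1 ((Opt.J a red).cs ++ ctx) (iopts π) with
              | none => rw [hr] at h; simp at h
              | some s2 =>
                rw [hr] at h
                simp only at h
                intro o' ho'
                rcases List.mem_cons.mp ho' with rfl | ho'
                · intro hh
                  obtain ⟨o2, ho2, hh2⟩ := hbad π (mem_of_getP _ _ _ hg)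
                  exact ih _ _ _ _ hr (hctx' hh) o2 ho2 hh2
                · exact ih _ _ _ _ h hctx o' ho'

end Pool.Agent.Q75.EF
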