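import Mathlib

/-!
# Connected fair division of graphs: definitions

The vertices of a finite graph are indivisible goods, to be divided among `n` agents.
-/

namespace Pool.Agent.Q75.EF

variable {V : Type} [DecidableEq V]

/-- A graph is traceable if it has a Hamiltonian path. -/
def IsTraceable (G : SimpleGraph V) : Prop :=
  ∃ (a b : V) (p : G.Walk a b), p.IsHamiltonian

/-- A share is connected if it is empty or induces a connected subgraph. -/
def IsConnectedShare (G : SimpleGraph V) (S : Finset V) : Prop :=
  S.Nonempty → (G.induce (S : Set V)).Connected

/-- `o` is an outer vertex of the share `S`: `S` minus `o` is empty or induces a connected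
subgraph. -/
def IsOuter (G : SimpleGraph V) (S : Finset V) (o : V) : Prop :=
  o ∈ S ∧ IsConnectedShare G (S.erase o)

/-- An allocation: pairwise disjoint shares (possibly empty) covering all vertices. -/
structure IsAllocation {n : ℕ} (A : Fin n → Finset V) : Prop where
  disjoint : ∀ i j, i ≠ j → Disjoint (A i) (A j)
  cover : ∀ x, ∃ i, x ∈ A i

/-- The allocation `A` is EF1-outer for the valuations `v i`: every agent `i` values the share of
every agent `j`, possibly after the removal of one outer vertex of that share, at most as much as
the own share. -/
def IsEF1Outer (G : SimpleGraph V) {n : ℕ} (v : Fin n → Finset V → ℝ) (A : Fin n → Finset V) :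
    Prop :=
  ∀ i j, v i (A j) ≤ v i (A i) ∨ ∃ o, IsOuter G (A j) o ∧ v i ((A j).erase o) ≤ v i (A i)

/-- A profile of common additive valuations (a CA profile): all agents have the same valuation,
the sum of nonnegative vertex weights. -/
def IsCommonAdditive (n : ℕ) (v : Fin n → Finset V → ℝ) : Prop :=
  ∃ w : V → ℝ, (∀ x, 0 ≤ w x) ∧ ∀ i S, v i S = ∑ x ∈ S, w x

/-- `G` universally guarantees connected EF1-outer allocations for the class `C` of profiles: for
every number `n ≥ 1` of agents and every profile of `n` valuations in `C` there is a connected
EF1-outer allocation. -/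
def UniversallyGuarantees (G : SimpleGraph V)
    (C : ∀ n : ℕ, (Fin n → Finset V → ℝ) → Prop) : Prop :=
  ∀ n : ℕ, 1 ≤ n → ∀ v : Fin n → Finset V → ℝ, C n v →
    ∃ A : Fin n → Finset V, IsAllocation A ∧ (∀ i, IsConnectedShare G (A i)) ∧ IsEF1Outer G v A

end Pool.Agent.Q75.EF
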