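import Pool.Agent.Q75.EF.Check
import Pool.Agent.Q75.EF.Defs

/-!
# The graph on ten vertices
-/

namespace Pool.Agent.Q75.EF

open SimpleGraph

/-- The links of the vertices `0,…,4` to the clique `{5,…,9}`. -/
def link (a b : Fin 10) : Prop :=
  (a = 0 ∧ b = 5) ∨ ((a = 1 ∨ a = 2) ∧ (b = 6 ∨ b = 7)) ∨ ((a = 3 ∨ a = 4) ∧ (b = 8 ∨ b = 9))

instance : DecidableRel link := fun a b => by unfold link; infer_instance

/-- The graph: a clique on `{5,…,9}`, a pendant vertex `0` at `5`, two vertices `1, 2` adjacent to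
`6, 7`, and two vertices `3, 4` adjacent to `8, 9`. -/
def Gs : SimpleGraph (Fin 10) where
  Adj a b := a ≠ b ∧ ((5 ≤ a ∧ 5 ≤ b) ∨ link a b ∨ link b a)
  symm := ⟨fun a b h => ⟨h.1.symm, by tauto⟩⟩
  loopless := ⟨fun a h => h.1 rfl⟩

instance : DecidableRel Gs.Adj := fun a b => by unfold Gs; infer_instance

/-- Criterion for connected sets. -/
theorem conn_of_core (S : Finset (Fin 10)) (h1 : ∃ k ∈ S, 5 ≤ k)
    (h2 : ∀ x ∈ S, ¬ 5 ≤ x → ∃ y ∈ S, 5 ≤ y ∧ Gs.Adj x y) :
    (Gs.induce (S : Set (Fin 10))).Connected := by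
  obtain ⟨k, hk, hk5⟩ := h1
  rw [connected_iff_exists_forall_reachable]
  refine ⟨⟨k, by exact_mod_cast hk⟩, ?_⟩
  have core : ∀ (y : Fin 10) (hy : y ∈ (S : Set (Fin 10))), 5 ≤ y →
      (Gs.induce (S : Set (Fin 10))).Reachable ⟨k, by exact_mod_cast hk⟩ ⟨y, hy⟩ := by
    intro y hy hy5
    by_cases e : k = y
    · subst e; exact Reachable.refl _
    · apply Adj.reachable
      simp only [comap_adj, Function.Embedding.subtype_apply]
      exact ⟨e, Or.inl ⟨hk5, hy5⟩⟩
  rintro ⟨x, hx⟩
  by_cases h : 5 ≤ x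
  · exact core x hx h
  · obtain ⟨y, hy, hy5, hadj⟩ := h2 x (by exact_mod_cast hx) h
    refine (core y (by exact_mod_cast hy) hy5).trans (Adj.reachable ?_)
    simp only [comap_adj, Function.Embedding.subtype_apply]
    exact hadj.symm

theorem conn_singleton (x : Fin 10) : (Gs.induce (({x} : Finset (Fin 10)) : Set (Fin 10))).Connected := by
  rw [connected_iff_exists_forall_reachable]
  refine ⟨⟨x, by simp⟩, ?_⟩
  rintro ⟨y, hy⟩
  have : y = x := by simpa using hy
  subst this
  exact Reachable.refl _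

/-- `Gs` is connected. -/
theorem Gs_connected : Gs.Connected := by
  rw [connected_iff_exists_forall_reachable]
  refine ⟨5, ?_⟩
  have core : ∀ y : Fin 10, 5 ≤ y → Gs.Reachable 5 y := by
    intro y hy
    by_cases e : (5 : Fin 10) = y
    · subst e; exact Reachable.refl _
    · exact Adj.reachable ⟨e, Or.inl ⟨le_rfl, hy⟩⟩
  intro x
  have h : 5 ≤ x ∨ ∃ y, 5 ≤ y ∧ Gs.Adj x y := by
    revert x; decide
  rcases h with h | ⟨y, hy, hadj⟩
  · exact core x h
  · exact (core y hy).trans hadj.symm.reachable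

/-- `Gs` has no Hamiltonian path. -/
theorem Gs_not_traceable : ¬ IsTraceable Gs := by
  rintro ⟨a, b, p, hp⟩
  have hlen : p.length = 9 := by
    have := hp.length_eq
    simpa using this
  have hinj : ∀ i ≤ 9, ∀ j ≤ 9, p.getVert i = p.getVert j → i = j := by
    intro i hi j hj h
    exact hp.isPath.getVert_injOn (by simpa [hlen] using hi) (by simpa [hlen] using hj) h
  have hpos : ∀ x : Fin 10, ∃ i ≤ 9, p.getVert i = x := by
    intro x
    obtain ⟨i, hi, hle⟩ := (SimpleGraph.Walk.mem_support_iff_exists_getVert).mp (hp.mem_support x)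
    exact ⟨i, by omega, hi⟩
  have hadj : ∀ i < 9, Gs.Adj (p.getVert i) (p.getVert (i + 1)) := by
    intro i hi
    exact p.adj_getVert_succ (by omega)
  choose pos hpos9 hposv using hpos
  -- interior vertex: predecessor and successor
  have key : ∀ x u v : Fin 10, (∀ y, Gs.Adj x y → y = u ∨ y = v) → 0 < pos x → pos x < 9 →
      2 * pos x = pos u + pos v := by
    intro x u v hx h0 h9
    have e1 := hadj (pos x - 1) (by omega)
    have e2 := hadj (pos x) (by omega)
    have e0 : pos x - 1 + 1 = pos x := by omega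
    rw [e0, hposv] at e1
    rw [hposv] at e2
    have d1 := hx _ e1.symm
    have d2 := hx _ e2
    have pe : ∀ i ≤ 9, ∀ y, p.getVert i = y → i = pos y := by
      intro i hi y hy
      exact hinj i hi (pos y) (hpos9 y) (by rw [hposv, hy])
    rcases d1 with d1 | d1 <;> rcases d2 with d2 | d2
    · have := hinj (pos x - 1) (by omega) (pos x + 1) (by omega) (by rw [d1, d2]); omega
    · have := pe _ (by omega) _ d1; have := pe _ (by omega) _ d2; omega
    · have := pe _ (by omega) _ d1; have := pe _ (by omega) _ d2; omega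
    · have := hinj (pos x - 1) (by omega) (pos x + 1) (by omega) (by rw [d1, d2]); omega
  have posinj : ∀ x y : Fin 10, pos x = pos y → x = y := by
    intro x y h
    rw [← hposv x, ← hposv y, h]
  have k0 := key 0 5 5 (by decide)
  have k1 := key 1 6 7 (by decide)
  have k2 := key 2 6 7 (by decide)
  have k3 := key 3 8 9 (by decide)
  have k4 := key 4 8 9 (by decide)
  have n05 : pos 0 ≠ pos 5 := fun h => absurd (posinj _ _ h) (by decide)
  have n12 : pos 1 ≠ pos 2 := fun h => absurd (posinj _ _ h) (by decide)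
  have n34 : pos 3 ≠ pos 4 := fun h => absurd (posinj _ _ h) (by decide)
  have n01 : pos 0 ≠ pos 1 := fun h => absurd (posinj _ _ h) (by decide)
  have n02 : pos 0 ≠ pos 2 := fun h => absurd (posinj _ _ h) (by decide)
  have n03 : pos 0 ≠ pos 3 := fun h => absurd (posinj _ _ h) (by decide)
  have n04 : pos 0 ≠ pos 4 := fun h => absurd (posinj _ _ h) (by decide)
  have n13 : pos 1 ≠ pos 3 := fun h => absurd (posinj _ _ h) (by decide)
  have n14 : pos 1 ≠ pos 4 := fun h => absurd (posinj _ _ h) (by decide)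
  have n23 : pos 2 ≠ pos 3 := fun h => absurd (posinj _ _ h) (by decide)
  have n24 : pos 2 ≠ pos 4 := fun h => absurd (posinj _ _ h) (by decide)
  have b0 := hpos9 0
  have b1 := hpos9 1
  have b2 := hpos9 2
  have b3 := hpos9 3
  have b4 := hpos9 4
  have c0 : pos 0 = 0 ∨ pos 0 = 9 := by
    by_contra h
    have := k0 (by omega) (by omega)
    omega
  have c12 : (pos 1 = 0 ∨ pos 1 = 9) ∨ (pos 2 = 0 ∨ pos 2 = 9) := by
    by_contra h
    have := k1 (by omega) (by omega)
    have := k2 (by omega) (by omega)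
    omega
  have c34 : (pos 3 = 0 ∨ pos 3 = 9) ∨ (pos 4 = 0 ∨ pos 4 = 9) := by
    by_contra h
    have := k3 (by omega) (by omega)
    have := k4 (by omega) (by omega)
    omega
  omega

end Pool.Agent.Q75.EF
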