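import Pool.Agent.Q75.EF.Graph

/-!
# From a good partition of masks to an EF1-outer allocation
-/

namespace Pool.Agent.Q75.EF

open SimpleGraph

/-- The set coded by a mask. -/
def F (s : ℕ) : Finset (Fin 10) := Finset.univ.filter fun i => s.testBit i

theorem mem_F (s : ℕ) (i : Fin 10) : i ∈ F s ↔ s.testBit i = true := by simp [F]

theorem bv_eq (w : Fin 10 → ℝ) (s : ℕ) : bv w s = ∑ x ∈ F s, w x := by
  unfold bv F
  rw [Finset.sum_filter]

/-- The masks `a` and `b` intersect. -/
def nz (a b : ℕ) : Bool := !(Nat.beq (Nat.land a b) 0)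

theorem nz_iff (a b : ℕ) : nz a b = true ↔ ∃ i, a.testBit i = true ∧ b.testBit i = true := by
  unfold nz
  rw [Bool.not_eq_true', ← Bool.not_eq_true, Nat.beq_eq]
  change ¬ (a &&& b = 0) ↔ _
  constructor
  · intro h
    obtain ⟨i, hi⟩ := Nat.exists_testBit_of_ne_zero h
    rw [Nat.testBit_and, Bool.and_eq_true] at hi
    exact ⟨i, hi⟩
  · rintro ⟨i, h1, h2⟩ h
    have : (a &&& b).testBit i = true := by rw [Nat.testBit_and, h1, h2]; rfl
    rw [h] at this
    simp at this

/-- Connectivity test for masks. -/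
def okB (s : ℕ) : Bool :=
  (Nat.beq s 1 || Nat.beq s 2 || Nat.beq s 4 || Nat.beq s 8 || Nat.beq s 16) ||
  (nz s 992 && (!nz s 1 || nz s 32) && (!nz s 2 || nz s 192) && (!nz s 4 || nz s 192) &&
    (!nz s 8 || nz s 768) && (!nz s 16 || nz s 768))

theorem nz_small (s m : ℕ) (hm : m < 1024) :
    nz s m = true ↔ ∃ i : Fin 10, i ∈ F s ∧ m.testBit i = true := by
  rw [nz_iff]
  constructor
  · rintro ⟨i, h1, h2⟩
    have hi : i < 10 := by
      by_contra h
      push Not at h
      have : m < 2 ^ i := lt_of_lt_of_le hm (by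
        calc 1024 = 2 ^ 10 := by norm_num
          _ ≤ 2 ^ i := Nat.pow_le_pow_right (by norm_num) h)
      rw [Nat.testBit_lt_two_pow this] at h2
      exact absurd h2 (by simp)
    exact ⟨⟨i, hi⟩, (mem_F _ _).mpr h1, h2⟩
  · rintro ⟨i, h1, h2⟩
    exact ⟨i, (mem_F _ _).mp h1, h2⟩

theorem okB_sound (s : ℕ) (h : okB s = true) :
    (F s).Nonempty ∧ (Gs.induce (F s : Set (Fin 10))).Connected := by
  unfold okB at h
  rw [Bool.or_eq_true] at h
  rcases h with h | h
  · have h2 : ∃ x : Fin 10, F s = {x} := by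
      simp only [Bool.or_eq_true, Nat.beq_eq] at h
      rcases h with (((h | h) | h) | h) | h
      · exact ⟨0, by subst h; decide⟩
      · exact ⟨1, by subst h; decide⟩
      · exact ⟨2, by subst h; decide⟩
      · exact ⟨3, by subst h; decide⟩
      · exact ⟨4, by subst h; decide⟩
    obtain ⟨x, hx⟩ := h2
    rw [hx]
    exact ⟨by simp, conn_singleton x⟩
  · simp only [Bool.and_eq_true] at h
    obtain ⟨⟨⟨⟨⟨hc, h0⟩, h1⟩, h2⟩, h3⟩, h4⟩ := h
    have core : ∃ k ∈ F s, (5 : Fin 10) ≤ k := by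
      obtain ⟨i, hi, hb⟩ := (nz_small s 992 (by norm_num)).mp hc
      refine ⟨i, hi, ?_⟩
      clear hi
      revert i; decide
    have per : ∀ (x : Fin 10) (m : ℕ), m < 1024 → (∀ i : Fin 10, m.testBit i = true →
        5 ≤ i ∧ Gs.Adj x i) → (!nz s (2 ^ (x : ℕ)) || nz s m) = true → x ∈ F s →
        ∃ y ∈ F s, 5 ≤ y ∧ Gs.Adj x y := by
      intro x m hm hadj h hx
      have h1 : nz s (2 ^ (x : ℕ)) = true := by
        rw [nz_iff]
        exact ⟨x, (mem_F _ _).mp hx, by simp⟩
      rw [h1] at h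
      simp only [Bool.not_true, Bool.false_or] at h
      obtain ⟨i, hi, hb⟩ := (nz_small s m hm).mp h
      exact ⟨i, hi, hadj i hb⟩
    refine ⟨?_, conn_of_core _ core ?_⟩
    · obtain ⟨k, hk, _⟩ := core
      exact ⟨k, hk⟩
    · intro x hx hx5
      have hx' : x = 0 ∨ x = 1 ∨ x = 2 ∨ x = 3 ∨ x = 4 := by
        clear hx
        revert x; decide
      rcases hx' with rfl | rfl | rfl | rfl | rfl
      · exact per 0 32 (by norm_num) (by decide) h0 hx
      · exact per 1 192 (by norm_num) (by decide) h1 hx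
      · exact per 2 192 (by norm_num) (by decide) h2 hx
      · exact per 3 768 (by norm_num) (by decide) h3 hx
      · exact per 4 768 (by norm_num) (by decide) h4 hx

/-- `r` is `s` minus one vertex, and empty or connected. -/
def redB (s r : ℕ) : Bool :=
  (List.range 10).any fun o => Nat.beq (Nat.lor r (2 ^ o)) s && !(nz r (2 ^ o)) &&
    (Nat.beq r 0 || okB r)

theorem F_zero : F 0 = ∅ := by decide

theorem redB_sound (s r : ℕ) (h : redB s r = true) :
    ∃ o, IsOuter Gs (F s) o ∧ F r = (F s).erase o := by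
  unfold redB at h
  rw [List.any_eq_true] at h
  obtain ⟨o, ho, h⟩ := h
  have ho10 : o < 10 := List.mem_range.mp ho
  simp only [Bool.and_eq_true, Bool.or_eq_true, Nat.beq_eq, Bool.not_eq_true'] at h
  obtain ⟨⟨h1, h2⟩, h3⟩ := h
  change r ||| 2 ^ o = s at h1
  have hnot : r.testBit o = false := by
    by_contra hc
    have : nz r (2 ^ o) = true := by
      rw [nz_iff]
      exact ⟨o, by simpa using hc, by simp⟩
    rw [this] at h2
    exact absurd h2 (by simp)
  have hF : F r = (F s).erase ⟨o, ho10⟩ := by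
    ext i
    rw [Finset.mem_erase, mem_F, mem_F, ← h1, Nat.testBit_or, Nat.testBit_two_pow]
    by_cases hi : (i : ℕ) = o
    · have : i = ⟨o, ho10⟩ := Fin.ext hi
      subst this
      simp [hnot]
    · have hne : i ≠ ⟨o, ho10⟩ := fun e => hi (by rw [e])
      have : ¬ (o = (i : ℕ)) := fun e => hi e.symm
      simp [hne, this]
  refine ⟨⟨o, ho10⟩, ⟨?_, ?_⟩, hF⟩
  · rw [mem_F, ← h1, Nat.testBit_or, Nat.testBit_two_pow]
    simp
  · rw [← hF]
    intro hne
    rcases h3 with h3 | h3
    · rw [h3, F_zero] at hne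
      simp at hne
    · exact (okB_sound r h3).2

/-- Pairwise disjointness of the masks. -/
def disjB : List Part → Bool
  | [] => true
  | p :: ps => (ps.all fun q => !(nz p.1 q.1)) && disjB ps

theorem disjB_sound : ∀ (π : List Part), disjB π = true →
    π.Pairwise fun p q => Disjoint (F p.1) (F q.1)
  | [], _ => List.Pairwise.nil
  | p :: ps, h => by
    simp only [disjB, Bool.and_eq_true, List.all_eq_true] at h
    refine List.Pairwise.cons ?_ (disjB_sound ps h.2)
    intro q hq
    have := h.1 q hq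
    rw [Finset.disjoint_left]
    intro i hi hi'
    have hn : nz p.1 q.1 = true := by
      rw [nz_iff]
      exact ⟨i, (mem_F _ _).mp hi, (mem_F _ _).mp hi'⟩
    rw [hn] at this
    simp at this

/-- Validity of a partition into `n` connected parts. -/
def validB (n : ℕ) (π : List Part) : Bool :=
  Nat.beq π.length n && (π.all fun p => okB p.1 && (p.2.all fun r => redB p.1 r)) && disjB π &&
    ((List.range 10).all fun i => π.any fun p => nz p.1 (2 ^ i))

/-- There is a connected EF1-outer allocation for `n` agents with common additive valuation `w`. -/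
def Good (n : ℕ) (w : Fin 10 → ℝ) : Prop :=
  ∃ A : Fin n → Finset (Fin 10), IsAllocation A ∧ (∀ i, IsConnectedShare Gs (A i)) ∧
    ∀ i j, ∑ x ∈ A j, w x ≤ ∑ x ∈ A i, w x ∨
      ∃ o, IsOuter Gs (A j) o ∧ ∑ x ∈ (A j).erase o, w x ≤ ∑ x ∈ A i, w x

theorem good_of_valid (n : ℕ) (hn : 0 < n) (w : Fin 10 → ℝ) (hw : ∀ i, 0 ≤ w i) (π : List Part)
    (hv : validB n π = true) (hb : ¬ BadPart w π) : Good n w := by
  unfold validB at hv
  simp only [Bool.and_eq_true, List.all_eq_true, Nat.beq_eq] at hv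
  obtain ⟨⟨⟨hlen, hparts⟩, hdisj⟩, hcov⟩ := hv
  have hlen' : π.length = n := hlen
  subst hlen'
  have hpw := disjB_sound π hdisj
  have : Nonempty (Fin π.length) := ⟨⟨0, hn⟩⟩
  obtain ⟨k0, -, hk0⟩ := Finset.exists_min_image Finset.univ
    (fun k : Fin π.length => bv w (π.get k).1) ⟨Classical.arbitrary _, Finset.mem_univ _⟩
  have hmin : ∀ q ∈ π, bv w (π.get k0).1 ≤ bv w q.1 := by
    intro q hq
    obtain ⟨k, hk⟩ := List.get_of_mem hq
    rw [← hk]
    exact hk0 k (Finset.mem_univ _)
  have hnb : ∀ q ∈ π, ¬ (Nat.beq q.1 (π.get k0).1 = false ∧ has0 q.2 = false ∧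
      ∀ r ∈ q.2, bv w (π.get k0).1 < bv w r) := by
    intro q hq hc
    apply hb
    refine ⟨Opt.I (π.get k0).1 π, ?_, ?_⟩
    · exact List.mem_map.mpr ⟨π.get k0, List.get_mem _ _, rfl⟩
    · exact ⟨hmin, q, hq, hc⟩
  refine ⟨fun k => F (π.get k).1, ⟨?_, ?_⟩, ?_, ?_⟩
  · intro i j hij
    rw [List.pairwise_iff_get] at hpw
    rcases lt_or_gt_of_ne hij with h | h
    · exact hpw i j h
    · exact (hpw j i h).symm
  · intro x
    have := hcov x (List.mem_range.mpr x.2)
    rw [List.any_eq_true] at this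
    obtain ⟨p, hp, hpx⟩ := this
    rw [nz_iff] at hpx
    obtain ⟨i, h1, h2⟩ := hpx
    rw [Nat.testBit_two_pow] at h2
    have hxi : (x : ℕ) = i := by simpa using h2
    obtain ⟨k, hk⟩ := List.get_of_mem hp
    refine ⟨k, ?_⟩
    rw [hk, mem_F, hxi]
    exact h1
  · intro k _
    exact (okB_sound _ (hparts _ (List.get_mem _ k)).1).2
  · intro i j
    have hq := hnb (π.get j) (List.get_mem _ _)
    have hmi : bv w (π.get k0).1 ≤ ∑ x ∈ F (π.get i).1, w x := by
      rw [← bv_eq]; exact hk0 i (Finset.mem_univ _)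
    have hred : ∀ r ∈ (π.get j).2, ∃ o, IsOuter Gs (F (π.get j).1) o ∧
        F r = (F (π.get j).1).erase o := by
      intro r hr
      exact redB_sound _ _ ((hparts _ (List.get_mem _ j)).2 r hr)
    have hex : ∀ r ∈ (π.get j).2, bv w r ≤ bv w (π.get k0).1 →
        ∃ o, IsOuter Gs (F (π.get j).1) o ∧
          ∑ x ∈ (F (π.get j).1).erase o, w x ≤ ∑ x ∈ F (π.get i).1, w x := by
      intro r hr hle
      obtain ⟨o, ho, he⟩ := hred r hr
      refine ⟨o, ho, ?_⟩
      rw [← he, ← bv_eq]
      exact hle.trans hmi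
    by_cases h1 : Nat.beq (π.get j).1 (π.get k0).1 = true
    · left
      have : (π.get j).1 = (π.get k0).1 := Nat.eq_of_beq_eq_true h1
      rw [← bv_eq, this]
      exact hmi
    · right
      by_cases h2 : has0 (π.get j).2 = true
      · unfold has0 at h2
        rw [List.any_eq_true] at h2
        obtain ⟨r, hr, hr0⟩ := h2
        have hr0' : r = 0 := Nat.eq_of_beq_eq_true hr0
        refine hex r hr ?_
        rw [hr0', bv_eq, bv_eq, F_zero]
        simpa using Finset.sum_nonneg fun i _ => hw i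
      · by_contra hc
        apply hq
        refine ⟨Bool.eq_false_iff.mpr h1, Bool.eq_false_iff.mpr h2, fun r hr => ?_⟩
        by_contra hlt
        exact hc (hex r hr (not_lt.mp hlt))

/-! ### Symmetry -/

theorem good_of_iso (n : ℕ) (e : Gs ≃g Gs) (w : Fin 10 → ℝ) (h : Good n (w ∘ e)) : Good n w := by
  obtain ⟨A, hA, hconn, hef⟩ := h
  let f : Fin 10 ↪ Fin 10 := e.toEquiv.toEmbedding
  have hf : ∀ x, f x = e x := fun _ => rfl
  have hsum : ∀ S : Finset (Fin 10), ∑ x ∈ S.map f, w x = ∑ x ∈ S, (w ∘ e) x := by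
    intro S
    rw [Finset.sum_map]
    rfl
  have hc : ∀ S : Finset (Fin 10), IsConnectedShare Gs S → IsConnectedShare Gs (S.map f) := by
    intro S hS hne
    have hne' : S.Nonempty := by simpa using hne
    have h1 := hS hne'
    let φ : Gs.induce (S : Set (Fin 10)) →g Gs.induce ((S.map f : Finset (Fin 10)) : Set (Fin 10)) :=
      { toFun := fun x => ⟨f x.1, by
          have := x.2
          simp only [Finset.coe_map, Set.mem_image]
          exact ⟨x.1, this, rfl⟩⟩
        map_rel' := by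
          rintro ⟨x, hx⟩ ⟨y, hy⟩ hxy
          simp only [comap_adj, Function.Embedding.subtype_apply] at hxy ⊢
          exact e.map_rel_iff.mpr hxy }
    refine h1.map φ ?_
    rintro ⟨y, hy⟩
    simp only [Finset.coe_map, Set.mem_image] at hy
    obtain ⟨x, hx, rfl⟩ := hy
    exact ⟨⟨x, hx⟩, rfl⟩
  refine ⟨fun i => (A i).map f, ⟨?_, ?_⟩, fun i => hc _ (hconn i), ?_⟩
  · intro i j hij
    rw [Finset.disjoint_map]
    exact hA.disjoint i j hij
  · intro x
    obtain ⟨i, hi⟩ := hA.cover (e.symm x)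
    refine ⟨i, ?_⟩
    rw [Finset.mem_map]
    exact ⟨e.symm x, hi, by rw [hf]; simp⟩
  · intro i j
    rcases hef i j with h | ⟨o, ho, hle⟩
    · left
      rw [hsum, hsum]
      exact h
    · right
      refine ⟨f o, ⟨?_, ?_⟩, ?_⟩
      · exact Finset.mem_map_of_mem f ho.1
      · rw [← Finset.map_erase]
        exact hc _ ho.2
      · rw [← Finset.map_erase, hsum, hsum]
        exact hle

/-- The four swaps and the exchange of the two sides, as automorphisms. -/
def autoOf (σ : Equiv.Perm (Fin 10)) (h : ∀ a b, Gs.Adj (σ a) (σ b) ↔ Gs.Adj a b) : Gs ≃g Gs :=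
  { toEquiv := σ, map_rel_iff' := h _ _ }

def side : Equiv.Perm (Fin 10) :=
  Equiv.swap 1 3 * (Equiv.swap 2 4 * (Equiv.swap 6 8 * Equiv.swap 7 9))

theorem good_perm (n : ℕ) (σ : Equiv.Perm (Fin 10)) (h : ∀ a b, Gs.Adj (σ a) (σ b) ↔ Gs.Adj a b)
    (w : Fin 10 → ℝ) (hg : Good n (fun x => w (σ x))) : Good n w :=
  good_of_iso n (autoOf σ h) w hg

/-- Reduction to weights ordered along the symmetries of the graph. -/
theorem wlog_all (n : ℕ) (t : (Fin 10 → ℝ) → ℝ)
    (h : ∀ w : Fin 10 → ℝ, (∀ i, 0 ≤ w i) → w 2 ≤ w 1 → w 4 ≤ w 3 → w 7 ≤ w 6 → w 9 ≤ w 8 →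
      t (fun x => w (side x)) ≤ t w → Good n w) :
    ∀ w : Fin 10 → ℝ, (∀ i, 0 ≤ w i) → Good n w := by
  have s0 : ∀ w : Fin 10 → ℝ, (∀ i, 0 ≤ w i) → w 2 ≤ w 1 → w 4 ≤ w 3 → w 7 ≤ w 6 → w 9 ≤ w 8 →
      Good n w := by
    intro w hw h1 h2 h3 h4
    rcases le_total (t (fun x => w (side x))) (t w) with ht | ht
    · exact h w hw h1 h2 h3 h4 ht
    · refine good_perm n side (by decide) w ?_
      refine h _ (fun i => hw _) ?_ ?_ ?_ ?_ ?_
      · have e1 : side 2 = 4 := by decide
        have e2 : side 1 = 3 := by decide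
        simp only [e1, e2]; exact h2
      · have e1 : side 4 = 2 := by decide
        have e2 : side 3 = 1 := by decide
        simp only [e1, e2]; exact h1
      · have e1 : side 7 = 9 := by decide
        have e2 : side 6 = 8 := by decide
        simp only [e1, e2]; exact h4
      · have e1 : side 9 = 7 := by decide
        have e2 : side 8 = 6 := by decide
        simp only [e1, e2]; exact h3
      · have e : (fun x => w (side (side x))) = w := by
          funext x
          have : side (side x) = x := by revert x; decide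
          rw [this]
        simp only [e]
        exact ht
  have s1 : ∀ w : Fin 10 → ℝ, (∀ i, 0 ≤ w i) → w 2 ≤ w 1 → w 4 ≤ w 3 → w 7 ≤ w 6 → Good n w := by
    intro w hw h1 h2 h3
    rcases le_total (w 9) (w 8) with h4 | h4
    · exact s0 w hw h1 h2 h3 h4
    · exact good_perm n (Equiv.swap 8 9) (by decide) w (s0 _ (fun i => hw _) h1 h2 h3 h4)
  have s2 : ∀ w : Fin 10 → ℝ, (∀ i, 0 ≤ w i) → w 2 ≤ w 1 → w 4 ≤ w 3 → Good n w := by
    intro w hw h1 h2
    rcases le_total (w 7) (w 6) with h3 | h3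
    · exact s1 w hw h1 h2 h3
    · exact good_perm n (Equiv.swap 6 7) (by decide) w (s1 _ (fun i => hw _) h1 h2 h3)
  have s3 : ∀ w : Fin 10 → ℝ, (∀ i, 0 ≤ w i) → w 2 ≤ w 1 → Good n w := by
    intro w hw h1
    rcases le_total (w 4) (w 3) with h2 | h2
    · exact s2 w hw h1 h2
    · exact good_perm n (Equiv.swap 3 4) (by decide) w (s2 _ (fun i => hw _) h1 h2)
  intro w hw
  rcases le_total (w 2) (w 1) with h1 | h1
  · exact s3 w hw h1
  · exact good_perm n (Equiv.swap 1 2) (by decide) w (s3 _ (fun i => hw _) h1)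

/-- Assembling a certificate. -/
theorem good_of_cert (n : ℕ) (hn : 0 < n) (tab : List (List Part)) (base : List Cn)
    (cert : List ℕ) (f : ℕ) (hok : run tab f cert base (iopts (tab.headD [])) = some [])
    (htab : tab ≠ []) (hvalid : tab.all (validB n) = true) (w : Fin 10 → ℝ) (hw : ∀ i, 0 ≤ w i)
    (hbase : ∀ c ∈ base, c.holds w) : Good n w := by
  by_contra hg
  have hbad : ∀ π ∈ tab, BadPart w π := by
    intro π hπ
    by_contra hb
    exact hg (good_of_valid n hn w hw π (List.all_eq_true.mp hvalid π hπ) hb)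
  have hs := run_sound w hw tab hbad f cert base _ [] hok hbase
  have hmem : tab.headD [] ∈ tab := by
    cases tab with
    | nil => exact absurd rfl htab
    | cons p l => simp
  obtain ⟨o, ho, hh⟩ := hbad _ hmem
  exact hs o ho hh

end Pool.Agent.Q75.EF
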